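import Pool.Agent.Lib.MP_d63cb0_gt.H15.Final

namespace Pool.Agent.Results.MP_d63cb0_gt.ConsistentCex

open Pool.Agent.Lib.MP_fecf72_lc Pool.Agent.Lib.MP_d63cb0_gt.H15

/-- There is a countable transitive model of ZFC containing a realcompact Tychonoff space that is
not Lindelof and all of whose ALGEBRAs are isomorphic to some `C(Y)`. -/
theorem result : ∃ M : Set V, M.Countable ∧ IsZFC M ∧ ∃ S : Sp, Tych M S ∧ RealCpt M S ∧
    ¬ Lind M S ∧ ∀ A, IsALG M S A → IsCY M S A := main

end Pool.Agent.Results.MP_d63cb0_gt.ConsistentCex
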