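import Pool.Agent.Lib.MP_d63cb0_gt.Prod

open Cardinal Topology Pool.Agent.Lib.MP_d63cb0_gt

namespace Pool.Agent.Results.MP_d63cb0_gt.ConverseClasses

/-- the realcompactification is a closed subspace of a power of the reals of size continuum -/
def ClassA (X : Type) [TopologicalSpace X] : Prop :=
  ∃ J : Type, #J ≤ 𝔠 ∧ ∃ e : Ups X → J → ℝ, IsClosedEmbedding e

/-- ccc, with countably many cardinals between the continuum and the size of C(X) -/
def ClassD (X : Type) [TopologicalSpace X] : Prop :=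
  CCC X ∧ {ν : Cardinal | 𝔠 < ν ∧ ν ≤ #C(X, ℝ)}.Countable

/-- dense subspace of a product of separable Tychonoff spaces -/
def ClassE (X : Type) [TopologicalSpace X] : Prop :=
  ∃ (I : Type) (M : I → Type) (_ : ∀ i, TopologicalSpace (M i)),
    (∀ i, T35Space (M i) ∧ TopologicalSpace.SeparableSpace (M i)) ∧
    ∃ e : X → ∀ i, M i, IsDenseEmbedding e

/-- a continuous map to a metric space with Lindelof fibres -/
def ClassG (X : Type) [TopologicalSpace X] : Prop :=
  ∃ (M : Type) (_ : MetricSpace M) (φ : C(X, M)), ∀ m, IsLindelof (φ ⁻¹' {m})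

/-- a self-map with continuous left inverse moving every point visibly in a metric space -/
def ClassH (X : Type) [TopologicalSpace X] : Prop :=
  ∃ T S : C(X, X), (∀ x, S (T x) = x) ∧
    ∃ (M : Type) (_ : MetricSpace M) (φ : C(X, M)), ∀ x, φ (T x) ≠ φ x

/-- a product with a sigma-compact factor having at least two points -/
def ClassI (X : Type) [TopologicalSpace X] : Prop :=
  ∃ (Z D : Type) (_ : TopologicalSpace Z) (_ : TopologicalSpace D),
    T35Space D ∧ SigmaCompactSpace D ∧ Nontrivial D ∧ Nonempty (X ≃ₜ Z × D)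

theorem result (X : Type) [TopologicalSpace X] [T35Space X]
    (hX : ClassA X ∨ #C(X, ℝ) ≤ 𝔠 ∨ TopologicalSpace.SeparableSpace X ∨ ClassD X ∨ ClassE X ∨
      (NormalSpace X ∧ MetaLindelof X) ∨ ClassG X ∨ ClassH X ∨ ClassI X)
    (H : AllCY X) : IsLindelof (Ups X) := by
  rcases hX with ⟨J, hJ, e, he⟩ | h | h | ⟨h1, h2⟩ | ⟨I, M, _, hM, e, he⟩ | ⟨h1, h2⟩ |
    ⟨M, _, φ, h⟩ | ⟨T, S, hST, M, _, φ, h⟩ | ⟨Z, D, _, _, _, _, _, ⟨e⟩⟩
  · exact class_embed H J hJ e he
  · exact class_card H h
  · exact class_card H card_sep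
  · exact class_ccc H h1 h2
  · have := fun i => (hM i).1
    have := fun i => (hM i).2
    exact class_pi H he
  · exact class_meta H h2
  · exact class_fibre H φ h
  · exact class_self' H T S hST φ h
  · exact class_prod H Z D e

end Pool.Agent.Results.MP_d63cb0_gt.ConverseClasses
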