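import Pool.Agent.Lib.MP_d63cb0_gt.H63.Indep

namespace Pool.Agent.Results.MP_d63cb0_gt.Independence

open Pool.Agent.Lib.MP_fecf72_lc Pool.Agent.Lib.MP_d63cb0_gt.H15 Pool.Agent.Lib.MP_d63cb0_gt.H63

/-- The converse of the theorem of Hager and Johnson holds in `M`. -/
def HJ (M : Set V) : Prop :=
  ∀ S : Sp, Tych M S → (∀ A, IsALG M S A → IsCY M S A) → UpsLind M S

/-- The converse fails in some countable transitive model of ZFC and, if there is an
`ω₁`-strongly compact cardinal, holds in another one. -/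
theorem result : (∃ M : Set V, M.Countable ∧ IsZFC M ∧ ¬ HJ M) ∧
    ∀ κ : Cardinal.{1}, OmegaOneSC κ → ∃ M : Set V, M.Countable ∧ IsZFC M ∧ HJ M :=
  ⟨cex, Pool.Agent.Lib.MP_d63cb0_gt.H63.main⟩

end Pool.Agent.Results.MP_d63cb0_gt.Independence
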