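import Pool.Agent.Lib.MP_d63cb0_gt.Main

open Cardinal Pool.Agent.Lib.MP_d63cb0_gt

namespace Pool.Agent.Results.MP_d63cb0_gt.RelLindelof

theorem result (X : Type) [TopologicalSpace X] [T35Space X] (H : AllCY X) (J : Type)
    (hJ : #J ≤ 𝔠) (Φ : C(X, J → ℝ)) (𝒰 : Set (Set (J → ℝ))) (h𝒰 : ∀ U ∈ 𝒰, IsOpen U)
    (hcov : ⋃₀ 𝒰 = Set.univ) : ∃ 𝒱 ⊆ 𝒰, 𝒱.Countable ∧ Set.range Φ ⊆ ⋃₀ 𝒱 :=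
  rel_lindelof H J hJ Φ 𝒰 h𝒰 hcov

end Pool.Agent.Results.MP_d63cb0_gt.RelLindelof
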